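import Pool.Agent.Helper53.BM.MH.Defs2
import Pool.Agent.Helper21.MH.Principle
import Pool.Agent.Helper12.MH.Lip
import Pool.Agent.Helper4.MH.Proj
import Pool.Agent.Helper79.MH.Hess
import Pool.Agent.Helper30.MH.Skew

/-!
# The projections onto the orbit directions and the estimate (7b)
-/

set_option autoImplicit false

open Filter Topology

namespace Pool.Agent.Helper53.BM

universe u

variable {E : Type u} [NormedAddCommGroup E] [NormedSpace ℝ E]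

namespace Rng

lemma hess_closure_eq_zero (x v : E) {W : Submodule ℝ E} (h : ∀ w ∈ W, hess x v w = 0) :
    ∀ w ∈ W.topologicalClosure, hess x v w = 0 := by
  intro w hw
  have hcl : IsClosed {w : E | hess x v w = 0} :=
    isClosed_eq (hess x v).continuous continuous_const
  have hw' : w ∈ closure (W : Set E) := hw
  exact closure_minimal (fun w hw => h w hw) hcl hw'

lemma hess_Zs (h : MicroSp E) {𝔤 : Submodule ℝ (E →L[ℝ] E)} (hg : IsStr 𝔤) {z : E} (hz : z ≠ 0)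
    {v : E} (hv : v ∈ Zs 𝔤 z) : ∀ w ∈ (Ws 𝔤 z).topologicalClosure, hess z v w = 0 := by
  refine hess_closure_eq_zero z v ?_
  intro w hw
  obtain ⟨D, hD, rfl⟩ := mem_Ws.mp hw
  rw [hess_skew h (fun y => hg.skew D hD y) hz v, hv D hD, neg_zero]

/-- `P` is the `hess z`-orthogonal projection onto the closure of the orbit directions at `z`. -/
def IsPr (𝔤 : Submodule ℝ (E →L[ℝ] E)) (z : E) (P : E →L[ℝ] E) : Prop :=
  (∀ v, P v ∈ (Ws 𝔤 z).topologicalClosure) ∧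
    (∀ v, ∀ w ∈ (Ws 𝔤 z).topologicalClosure, hess z (v - P v) w = 0)

lemma IsPr.eq {𝔤 : Submodule ℝ (E →L[ℝ] E)} {z : E} {P : E →L[ℝ] E} (hP : IsPr 𝔤 z P) {c : ℝ}
    (hc : 0 < c) (hco : ∀ v, c * ‖v‖ ^ 2 ≤ hess z v v) {v p : E}
    (hp : p ∈ (Ws 𝔤 z).topologicalClosure)
    (hq : ∀ w ∈ (Ws 𝔤 z).topologicalClosure, hess z (v - p) w = 0) : P v = p := by
  have h1 : P v - p ∈ (Ws 𝔤 z).topologicalClosure := Submodule.sub_mem _ (hP.1 v) hp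
  have h2 : hess z (P v - p) (P v - p) = 0 := by
    have h3 : P v - p = (v - p) - (v - P v) := by abel
    have h4 : hess z (P v - p) = hess z (v - p) - hess z (v - P v) := by
      rw [h3, map_sub]
    rw [h4, sub_apply, hq _ h1, hP.2 v _ h1, sub_zero]
  have h5 := hco (P v - p)
  rw [h2] at h5
  have h6 : ‖P v - p‖ = 0 := by
    by_contra hne
    have h7 : 0 < ‖P v - p‖ := lt_of_le_of_ne (norm_nonneg _) (Ne.symm hne)
    have : 0 < c * ‖P v - p‖ ^ 2 := by positivity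
    linarith
  exact sub_eq_zero.mp (norm_eq_zero.mp h6)

lemma exists_IsPr [CompleteSpace E] (h : MicroSp E) (𝔤 : Submodule ℝ (E →L[ℝ] E)) {z : E}
    (hz : z ≠ 0) : ∃ P, IsPr 𝔤 z P := by
  obtain ⟨L, c, -, hc, hb⟩ := hess_bounds h
  obtain ⟨P, h1, h2⟩ := exists_proj (hess z) (hess_symm h hz) hc (hb z hz).2 (Ws 𝔤 z)
  exact ⟨P, h1, h2⟩

open Classical in
/-- The projection. -/
noncomputable def Pr (𝔤 : Submodule ℝ (E →L[ℝ] E)) (z : E) : E →L[ℝ] E :=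
  if h : ∃ P, IsPr 𝔤 z P then h.choose else 0

lemma Pr_spec [CompleteSpace E] (h : MicroSp E) (𝔤 : Submodule ℝ (E →L[ℝ] E)) {z : E}
    (hz : z ≠ 0) : IsPr 𝔤 z (Pr 𝔤 z) := by
  have h1 := exists_IsPr h 𝔤 hz
  rw [Pr, dif_pos h1]
  exact h1.choose_spec

lemma Ws_smul (𝔤 : Submodule ℝ (E →L[ℝ] E)) (z : E) {c : ℝ} (hc : c ≠ 0) :
    Ws 𝔤 (c • z) = Ws 𝔤 z := by
  ext w
  rw [mem_Ws, mem_Ws]
  constructor
  · rintro ⟨D, hD, rfl⟩
    exact ⟨c • D, 𝔤.smul_mem c hD, by rw [smul_apply, map_smul]⟩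
  · rintro ⟨D, hD, rfl⟩
    exact ⟨c⁻¹ • D, 𝔤.smul_mem _ hD, by
      rw [smul_apply, map_smul, smul_smul, inv_mul_cancel₀ hc, one_smul]⟩

lemma Pr_smul [CompleteSpace E] (h : MicroSp E) (𝔤 : Submodule ℝ (E →L[ℝ] E)) {z : E}
    (hz : z ≠ 0) {c : ℝ} (hc : c ≠ 0) : Pr 𝔤 (c • z) = Pr 𝔤 z := by
  obtain ⟨L, c', -, hc', hb⟩ := hess_bounds h
  have hcz : c • z ≠ 0 := smul_ne_zero hc hz
  ext v
  refine (Pr_spec h 𝔤 hcz).eq hc' (hb _ hcz).2 ?_ ?_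
  · rw [Ws_smul 𝔤 z hc]
    exact (Pr_spec h 𝔤 hz).1 v
  · rw [Ws_smul 𝔤 z hc, hess_smul h hz hc]
    exact (Pr_spec h 𝔤 hz).2 v

/-- `T` normalises `𝔤`. -/
def Nrm (𝔤 : Submodule ℝ (E →L[ℝ] E)) (T : E ≃ₗᵢ[ℝ] E) : Prop :=
  ∀ D ∈ 𝔤, cj T D ∈ 𝔤 ∧ cj T.symm D ∈ 𝔤

lemma map_Ws {𝔤 : Submodule ℝ (E →L[ℝ] E)} {T : E ≃ₗᵢ[ℝ] E} (hT : Nrm 𝔤 T) {z w : E}
    (hw : w ∈ Ws 𝔤 z) : T w ∈ Ws 𝔤 (T z) := by
  obtain ⟨D, hD, rfl⟩ := mem_Ws.mp hw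
  refine mem_Ws.mpr ⟨cj T D, (hT D hD).1, ?_⟩
  rw [cj_apply, LinearIsometryEquiv.symm_apply_apply]

lemma symm_map_Ws {𝔤 : Submodule ℝ (E →L[ℝ] E)} {T : E ≃ₗᵢ[ℝ] E} (hT : Nrm 𝔤 T) {z w : E}
    (hw : w ∈ Ws 𝔤 (T z)) : T.symm w ∈ Ws 𝔤 z := by
  obtain ⟨D, hD, rfl⟩ := mem_Ws.mp hw
  refine mem_Ws.mpr ⟨cj T.symm D, (hT D hD).2, ?_⟩
  rw [cj_apply, LinearIsometryEquiv.symm_symm]

lemma map_closure_Ws {𝔤 : Submodule ℝ (E →L[ℝ] E)} {T : E ≃ₗᵢ[ℝ] E} (hT : Nrm 𝔤 T) {z w : E}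
    (hw : w ∈ (Ws 𝔤 z).topologicalClosure) : T w ∈ (Ws 𝔤 (T z)).topologicalClosure := by
  have hw' : w ∈ closure (Ws 𝔤 z : Set E) := hw
  exact map_mem_closure T.continuous hw' fun w hw => map_Ws hT hw

lemma symm_map_closure_Ws {𝔤 : Submodule ℝ (E →L[ℝ] E)} {T : E ≃ₗᵢ[ℝ] E} (hT : Nrm 𝔤 T)
    {z w : E} (hw : w ∈ (Ws 𝔤 (T z)).topologicalClosure) :
    T.symm w ∈ (Ws 𝔤 z).topologicalClosure := by
  have hw' : w ∈ closure (Ws 𝔤 (T z) : Set E) := hw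
  exact map_mem_closure T.symm.continuous hw' fun w hw => symm_map_Ws hT hw

lemma Pr_map [CompleteSpace E] (h : MicroSp E) (𝔤 : Submodule ℝ (E →L[ℝ] E)) {z : E}
    (hz : z ≠ 0) {T : E ≃ₗᵢ[ℝ] E} (hT : Nrm 𝔤 T) : Pr 𝔤 (T z) = cj T (Pr 𝔤 z) := by
  obtain ⟨L, c', -, hc', hb⟩ := hess_bounds h
  have hTz : T z ≠ 0 := by
    rw [← norm_ne_zero_iff, T.norm_map]
    exact norm_ne_zero_iff.mpr hz
  ext v
  refine (Pr_spec h 𝔤 hTz).eq hc' (hb _ hTz).2 ?_ ?_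
  · exact map_closure_Ws hT ((Pr_spec h 𝔤 hz).1 _)
  · intro w hw
    rw [cj_apply]
    have h1 : v - T (Pr 𝔤 z (T.symm v)) = T (T.symm v - Pr 𝔤 z (T.symm v)) := by
      rw [map_sub, LinearIsometryEquiv.apply_symm_apply]
    have h2 : w = T (T.symm w) := (LinearIsometryEquiv.apply_symm_apply T w).symm
    rw [h1, h2, hess_map h hz]
    exact (Pr_spec h 𝔤 hz).2 _ _ (symm_map_closure_Ws hT hw)

lemma Pr_bound [CompleteSpace E] (h : MicroSp E) (𝔤 : Submodule ℝ (E →L[ℝ] E)) :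
    ∃ B : ℝ, 0 < B ∧ ∀ z : E, z ≠ 0 → ‖Pr 𝔤 z‖ ≤ B := by
  obtain ⟨L, c, hL, hc, hb⟩ := hess_bounds h
  refine ⟨L / c, by positivity, fun z hz => ?_⟩
  refine ContinuousLinearMap.opNorm_le_bound _ (by positivity) fun v => ?_
  have hP := Pr_spec h 𝔤 hz
  set p := Pr 𝔤 z v with hp
  have h1 : hess z p p = hess z v p := by
    have h2 := hP.2 v p (hP.1 v)
    rw [map_sub, sub_apply, sub_eq_zero] at h2
    exact h2.symm
  have h3 := (hb z hz).2 p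
  have h4 : hess z v p ≤ L * ‖v‖ * ‖p‖ := by
    refine (le_abs_self _).trans ?_
    rw [← Real.norm_eq_abs]
    refine ((hess z v).le_opNorm p).trans ?_
    gcongr
    exact ((hess z).le_opNorm v).trans (by gcongr; exact (hb z hz).1)
  rw [h1] at h3
  rcases eq_or_lt_of_le (norm_nonneg p) with h0 | h0
  · rw [← h0]; positivity
  · have h5 : c * ‖p‖ ≤ L * ‖v‖ := by
      have : c * ‖p‖ * ‖p‖ ≤ L * ‖v‖ * ‖p‖ := by nlinarith
      exact le_of_mul_le_mul_right this h0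
    rw [div_mul_eq_mul_div, le_div_iff₀ hc]
    linarith

lemma cj_sub_le {T : E ≃ₗᵢ[ℝ] E} {ε : ℝ} (hε : 0 ≤ ε) (hT : CloseToId T ε) (D : E →L[ℝ] E) :
    ‖cj T D - D‖ ≤ 2 * ε * ‖D‖ := by
  refine ContinuousLinearMap.opNorm_le_bound _ (by positivity) fun v => ?_
  rw [sub_apply, cj_apply]
  have h1 : T (D (T.symm v)) - D v = (T (D (T.symm v)) - D (T.symm v)) + D (T.symm v - v) := by
    rw [map_sub]; abel
  have h2 : ‖D (T.symm v)‖ ≤ ‖D‖ * ‖v‖ := by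
    have := D.le_opNorm (T.symm v)
    rwa [T.symm.norm_map] at this
  have h3 : ‖T.symm v - v‖ ≤ ε * ‖v‖ := by
    have h4 := hT (T.symm v)
    rw [LinearIsometryEquiv.apply_symm_apply, T.symm.norm_map, norm_sub_rev] at h4
    exact h4
  rw [h1]
  calc ‖(T (D (T.symm v)) - D (T.symm v)) + D (T.symm v - v)‖
      ≤ ε * ‖D (T.symm v)‖ + ‖D‖ * ‖T.symm v - v‖ :=
        (norm_add_le _ _).trans (add_le_add (hT _) (D.le_opNorm _))
    _ ≤ ε * (‖D‖ * ‖v‖) + ‖D‖ * (ε * ‖v‖) := by gcongr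
    _ = 2 * ε * ‖D‖ * ‖v‖ := by ring

/-- Conjugation as a linear map. -/
noncomputable def cjL (T : E ≃ₗᵢ[ℝ] E) : (E →L[ℝ] E) →ₗ[ℝ] (E →L[ℝ] E) where
  toFun := cj T
  map_add' D D' := by
    ext v
    simp only [cj_apply, add_apply, map_add]
  map_smul' c D := by
    ext v
    simp only [cj_apply, smul_apply, map_smul, RingHom.id_apply]

lemma Pr_lip [CompleteSpace E] (h : MicroSp E) {𝔤 : Submodule ℝ (E →L[ℝ] E)} (hg : IsStr 𝔤) :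
    ∃ C : ℝ, 0 < C ∧ ∀ x y : E, ‖x‖ = 1 → ‖y‖ = 1 → ‖Pr 𝔤 x - Pr 𝔤 y‖ ≤ C * ‖x - y‖ := by
  obtain ⟨B, hB0, hB⟩ := Pr_bound h 𝔤
  have hne : ∀ x : E, ‖x‖ = 1 → x ≠ 0 := by
    intro x hx h0
    rw [h0, norm_zero] at hx
    exact zero_ne_one hx
  refine principle (Pr 𝔤) B (fun x hx => hB x (hne x hx))
    (fun x hx c hc => Pr_smul h 𝔤 hx hc.ne') ?_
  intro ε hε
  obtain ⟨t, ht, H⟩ := hg.move (ε / 2) (by positivity)
  refine ⟨t, ht, fun x y hx hy hxy => ?_⟩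
  obtain ⟨T, hTx, hTc, hTn⟩ := H x y hx hy hxy
  refine ⟨T, cjL T, hTx, fun z => (hTc z).trans (by gcongr; linarith), fun D => ?_,
    fun z hz => Pr_map h 𝔤 hz hTn⟩
  have := cj_sub_le (by positivity) hTc D
  calc ‖cjL T D - D‖ ≤ 2 * (ε / 2) * ‖D‖ := this
    _ = ε * ‖D‖ := by ring

/-- `(1 - P_z) D v` is controlled by `D z`. -/
lemma one_sub_Pr [CompleteSpace E] (h : MicroSp E) {𝔤 : Submodule ℝ (E →L[ℝ] E)} {C : ℝ}
    (hC : 0 < C)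
    (hlip : ∀ x y : E, ‖x‖ = 1 → ‖y‖ = 1 → ‖Pr 𝔤 x - Pr 𝔤 y‖ ≤ C * ‖x - y‖)
    {z : E} (hz : ‖z‖ = 1) {D : E →L[ℝ] E} (hD : D ∈ 𝔤) (v : E) :
    ‖D v - Pr 𝔤 z (D v)‖ ≤ 2 * C * ‖D z‖ * ‖v‖ := by
  obtain ⟨L, c, hL, hc, hb⟩ := hess_bounds h
  have hz0 : z ≠ 0 := by
    intro h0
    rw [h0, norm_zero] at hz
    exact zero_ne_one hz
  have hfix : ∀ y : E, y ≠ 0 → Pr 𝔤 y (D y) = D y := by
    intro y hy
    refine (Pr_spec h 𝔤 hy).eq hc (hb y hy).2 (mem_closure_Ws hD y) ?_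
    intro w _
    rw [sub_self, map_zero, zero_apply]
  -- the estimate for small positive `s`
  have key : ∀ s : ℝ, 0 < s → s * ‖v‖ < 1 →
      ‖D v - Pr 𝔤 z (D v)‖ ≤ 2 * C * ‖v‖ * (‖D z‖ + s * ‖D v‖) := by
    intro s hs hsv
    set y : E := z + s • v with hy
    have hy0 : y ≠ 0 := by
      intro h0
      have h1 : z = -(s • v) := by
        rw [hy] at h0
        exact eq_neg_of_add_eq_zero_left h0
      have h2 : ‖z‖ = s * ‖v‖ := by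
        rw [h1, norm_neg, norm_smul, Real.norm_of_nonneg hs.le]
      rw [hz] at h2
      linarith
    have h1 : s • (D v - Pr 𝔤 z (D v)) = (Pr 𝔤 y - Pr 𝔤 z) (D y) := by
      rw [sub_apply, hfix y hy0]
      have h2 : Pr 𝔤 z (D y) = D z + s • Pr 𝔤 z (D v) := by
        rw [hy]
        simp only [map_add, map_smul]
        rw [hfix z hz0]
      have h3 : D y = D z + s • D v := by
        rw [hy]; simp only [map_add, map_smul]
      rw [h2, h3, smul_sub]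
      abel
    have h4 : ‖Pr 𝔤 y - Pr 𝔤 z‖ ≤ C * (2 * (s * ‖v‖)) := by
      have h5 : Pr 𝔤 y = Pr 𝔤 (‖y‖⁻¹ • y) :=
        (Pr_smul h 𝔤 hy0 (inv_ne_zero (norm_ne_zero_iff.mpr hy0))).symm
      have h6 : ‖‖y‖⁻¹ • y‖ = 1 := by
        rw [norm_smul, norm_inv, norm_norm, inv_mul_cancel₀ (norm_ne_zero_iff.mpr hy0)]
      rw [h5]
      refine (hlip _ _ h6 hz).trans ?_
      gcongr
      have h7 := Princ.nz_sub_le hz0 hy0
      rw [Princ.nz_of_unit hz, hz, div_one] at h7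
      have h8 : ‖z - y‖ = s * ‖v‖ := by
        rw [hy, sub_add_cancel_left, norm_neg, norm_smul, Real.norm_of_nonneg hs.le]
      rw [h8] at h7
      rw [norm_sub_rev]
      exact h7
    have h5 : ‖D y‖ ≤ ‖D z‖ + s * ‖D v‖ := by
      have h3 : D y = D z + s • D v := by
        rw [hy]; simp only [map_add, map_smul]
      rw [h3]
      refine (norm_add_le _ _).trans ?_
      rw [norm_smul, Real.norm_of_nonneg hs.le]
    have h6 : s * ‖D v - Pr 𝔤 z (D v)‖ ≤ s * (2 * C * ‖v‖ * (‖D z‖ + s * ‖D v‖)) := by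
      calc s * ‖D v - Pr 𝔤 z (D v)‖ = ‖s • (D v - Pr 𝔤 z (D v))‖ := by
            rw [norm_smul, Real.norm_of_nonneg hs.le]
        _ = ‖(Pr 𝔤 y - Pr 𝔤 z) (D y)‖ := by rw [h1]
        _ ≤ ‖Pr 𝔤 y - Pr 𝔤 z‖ * ‖D y‖ := ContinuousLinearMap.le_opNorm _ _
        _ ≤ (C * (2 * (s * ‖v‖))) * (‖D z‖ + s * ‖D v‖) := by gcongr
        _ = _ := by ring
    exact le_of_mul_le_mul_left h6 hs
  -- let `s → 0`
  have hlim : Tendsto (fun s : ℝ => 2 * C * ‖v‖ * (‖D z‖ + s * ‖D v‖)) (𝓝[>] 0)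
      (𝓝 (2 * C * ‖v‖ * (‖D z‖ + 0 * ‖D v‖))) := by
    refine Tendsto.mono_left ?_ nhdsWithin_le_nhds
    exact (Continuous.tendsto (by fun_prop) 0)
  have hev : ∀ᶠ s : ℝ in 𝓝[>] 0, ‖D v - Pr 𝔤 z (D v)‖ ≤ 2 * C * ‖v‖ * (‖D z‖ + s * ‖D v‖) := by
    have h1 : ∀ᶠ s : ℝ in 𝓝[>] 0, s * ‖v‖ < 1 := by
      have h2 : Tendsto (fun s : ℝ => s * ‖v‖) (𝓝[>] 0) (𝓝 (0 * ‖v‖)) :=
        Tendsto.mono_left (Continuous.tendsto (by fun_prop) 0) nhdsWithin_le_nhds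
      rw [zero_mul] at h2
      exact h2.eventually (gt_mem_nhds one_pos)
    filter_upwards [h1, self_mem_nhdsWithin] with s hs1 hs2
    exact key s hs2 hs1
  have := ge_of_tendsto hlim hev
  calc _ ≤ _ := this
    _ = _ := by ring

/-- `P_z D v` is controlled by `D z` for `v ∈ Z_z`. -/
lemma Pr_apply_le [CompleteSpace E] (h : MicroSp E) {𝔤 : Submodule ℝ (E →L[ℝ] E)}
    (hg : IsStr 𝔤) {C : ℝ} (hC : 0 < C)
    (hlip : ∀ x y : E, ‖x‖ = 1 → ‖y‖ = 1 → ‖Pr 𝔤 x - Pr 𝔤 y‖ ≤ C * ‖x - y‖)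
    {z : E} (hz : ‖z‖ = 1) {D : E →L[ℝ] E} (hD : D ∈ 𝔤) {v : E} (hv : v ∈ Zs 𝔤 z) :
    ‖Pr 𝔤 z (D v)‖ ≤ C * ‖D z‖ * ‖v‖ := by
  obtain ⟨L, c, hL, hc, hb⟩ := hess_bounds h
  have hz0 : z ≠ 0 := by
    intro h0
    rw [h0, norm_zero] at hz
    exact zero_ne_one hz
  -- the projections kill `Z`
  have hkill : ∀ y : E, y ≠ 0 → ∀ w ∈ Zs 𝔤 y, Pr 𝔤 y w = 0 := by
    intro y hy w hw
    refine (Pr_spec h 𝔤 hy).eq hc (hb y hy).2 (Submodule.zero_mem _) ?_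
    rw [sub_zero]
    exact hess_Zs h hg hy hw
  -- moving along the flow
  set ev : E → ℝ → E := fun x t => NormedSpace.exp (t • D) x with hev
  have hexp : ∀ t : ℝ, ∃ T : E ≃ₗᵢ[ℝ] E, (∀ x, T x = NormedSpace.exp (t • D) x) ∧
      ∀ x, T.symm x = NormedSpace.exp (-(t • D)) x := by
    intro t
    exact exists_iso_exp h (fun y => hg.skew _ (𝔤.smul_mem t hD) y)
  have hderiv : ∀ x : E, HasDerivAt (ev x) (D x) 0 := by
    intro x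
    have h1 : HasDerivAt (fun t : ℝ => NormedSpace.exp (t • D)) (NormedSpace.exp ((0 : ℝ) • D) * D) 0 :=
      hasDerivAt_exp_smul_const D (0 : ℝ)
    rw [zero_smul, NormedSpace.exp_zero, one_mul] at h1
    exact h1.clm_apply (hasDerivAt_const (0 : ℝ) x) |>.congr_deriv (by simp)
  have hmem : ∀ t : ℝ, ev v t ∈ Zs 𝔤 (ev z t) := by
    intro t D' hD'
    obtain ⟨T, hT, hT'⟩ := hexp t
    have h1 : ev z t = T z := (hT z).symm
    have h2 : ev v t = T v := (hT v).symm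
    rw [h1, h2, J_map h.hmt]
    have h3 := hg.conj D hD D' hD' (-t)
    rw [neg_smul, neg_neg] at h3
    have h4 := hv _ h3
    rw [mul_apply_eq_comp, mul_apply_eq_comp, ← hT v, ← hT'] at h4
    exact h4
  have hnorm : ∀ t : ℝ, ∀ x, ‖ev x t‖ = ‖x‖ := by
    intro t x
    obtain ⟨T, hT, hT'⟩ := hexp t
    have h2 : ev x t = T x := (hT x).symm
    rw [h2, T.norm_map]
  have key : ∀ t : ℝ, ‖Pr 𝔤 z (ev v t)‖ ≤ C * ‖ev z t - z‖ * ‖v‖ := by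
    intro t
    have hzt : ‖ev z t‖ = 1 := (hnorm t z).trans hz
    have hzt0 : ev z t ≠ 0 := by
      intro h0
      rw [h0, norm_zero] at hzt
      exact zero_ne_one hzt
    have h1 := hkill _ hzt0 _ (hmem t)
    have h2 : Pr 𝔤 z (ev v t) = (Pr 𝔤 z - Pr 𝔤 (ev z t)) (ev v t) := by
      rw [sub_apply, h1, sub_zero]
    rw [h2]
    refine (ContinuousLinearMap.le_opNorm _ _).trans ?_
    rw [hnorm t v]
    gcongr
    rw [norm_sub_rev (ev z t) z]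
    exact hlip _ _ hz hzt
  -- divide by `t`
  have h1 : HasDerivAt (fun t => Pr 𝔤 z (ev v t)) (Pr 𝔤 z (D v)) 0 :=
    (Pr 𝔤 z).hasFDerivAt.comp_hasDerivAt (0 : ℝ) (hderiv v)
  have h0v : ev v 0 = v := by
    rw [hev]
    simp only [zero_smul, NormedSpace.exp_zero, one_apply_eq_self]
  have h0z : ev z 0 = z := by
    rw [hev]
    simp only [zero_smul, NormedSpace.exp_zero, one_apply_eq_self]
  have h2 : Tendsto (fun t : ℝ => ‖t⁻¹ • Pr 𝔤 z (ev v t)‖) (𝓝[≠] 0) (𝓝 ‖Pr 𝔤 z (D v)‖) := by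
    have h3 := h1.tendsto_slope_zero
    simp only [zero_add] at h3
    rw [h0v, hkill z hz0 v hv] at h3
    simp only [sub_zero] at h3
    exact h3.norm
  have h4 : Tendsto (fun t : ℝ => C * ‖t⁻¹ • (ev z t - z)‖ * ‖v‖) (𝓝[≠] 0)
      (𝓝 (C * ‖D z‖ * ‖v‖)) := by
    have h3 := (hderiv z).tendsto_slope_zero
    simp only [zero_add] at h3
    rw [h0z] at h3
    exact (h3.norm.const_mul C).mul_const _
  refine le_of_tendsto_of_tendsto' h2 h4 fun t => ?_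
  rw [norm_smul, norm_smul]
  calc ‖t⁻¹‖ * ‖Pr 𝔤 z (ev v t)‖ ≤ ‖t⁻¹‖ * (C * ‖ev z t - z‖ * ‖v‖) := by
        gcongr
        exact key t
    _ = _ := by ring

end Rng

/-- If `D z = 0` then the range of `D` is contained in the closure of the orbit directions. -/
theorem range_closure [CompleteSpace E] (h : MicroSp E) {𝔤 : Submodule ℝ (E →L[ℝ] E)}
    (hg : IsStr 𝔤) {z : E} (hz : z ≠ 0) {D : E →L[ℝ] E} (hD : D ∈ 𝔤) (hDz : D z = 0) (v : E) :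
    D v ∈ (Ws 𝔤 z).topologicalClosure := by
  obtain ⟨C, hC, hlip⟩ := Rng.Pr_lip h hg
  have hn : ‖z‖⁻¹ ≠ 0 := inv_ne_zero (norm_ne_zero_iff.mpr hz)
  have h1 : ‖‖z‖⁻¹ • z‖ = 1 := by
    rw [norm_smul, norm_inv, norm_norm, inv_mul_cancel₀ (norm_ne_zero_iff.mpr hz)]
  have h2 := Rng.one_sub_Pr h hC hlip h1 hD v
  rw [map_smul, hDz, smul_zero, norm_zero, mul_zero, zero_mul] at h2
  have h3 : D v - Rng.Pr 𝔤 (‖z‖⁻¹ • z) (D v) = 0 := norm_eq_zero.mp (le_antisymm h2 (norm_nonneg _))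
  rw [sub_eq_zero] at h3
  rw [h3, ← Rng.Ws_smul 𝔤 z hn]
  exact (Rng.Pr_spec h 𝔤 (smul_ne_zero hn hz)).1 _

theorem seven_b [CompleteSpace E] (h : MicroSp E) {𝔤 : Submodule ℝ (E →L[ℝ] E)}
    (hg : IsStr 𝔤) : ∃ C : ℝ, 0 < C ∧ ∀ z : E, ‖z‖ = 1 → ∀ D ∈ 𝔤, ∀ v ∈ Zs 𝔤 z,
      ‖D v‖ ≤ C * ‖D z‖ * ‖v‖ := by
  obtain ⟨C, hC, hlip⟩ := Rng.Pr_lip h hg
  refine ⟨3 * C, by positivity, fun z hz D hD v hv => ?_⟩
  have h1 := Rng.one_sub_Pr h hC hlip hz hD v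
  have h2 := Rng.Pr_apply_le h hg hC hlip hz hD hv
  calc ‖D v‖ = ‖(D v - Rng.Pr 𝔤 z (D v)) + Rng.Pr 𝔤 z (D v)‖ := by rw [sub_add_cancel]
    _ ≤ 2 * C * ‖D z‖ * ‖v‖ + C * ‖D z‖ * ‖v‖ := (norm_add_le _ _).trans (add_le_add h1 h2)
    _ = _ := by ring

end Pool.Agent.Helper53.BM
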